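import Pool.Agent.helper7.ZB.SpecT

set_option autoImplicit false

/-!
Project ZB (MP_baa4d7_al), row zb:ZGP (the gap).
-/

namespace Pool.Agent.ZB

open Pool.Agent.helper58.DC Pool.Agent.DI Pool.Agent.GR Pool.Agent.OB Pool.Agent.DR Pool.Agent.FI Pool.Agent.FI3 Pool.Agent.FI4 Pool.Agent.FI4I Pool.Agent.LE Pool.Agent.L5 Pool.Agent.NAB

/-- `Om p j Z` is a subgroup -/
theorem ZGP_sub (p : ℕ) (G : Type) [Group G] (Z : Subgroup G) (hZ : ∀ z ∈ Z, ∀ x ∈ Z, z * x = x * z) (j : ℕ) :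
    ∃ S : Subgroup G, S ≤ Z ∧ (S : Set G) = Om p j Z := by
  have key : ∀ z ∈ Z, ∀ x ∈ Z, ∀ n : ℕ, (z * x) ^ n = z ^ n * x ^ n := by
    intro z hz x hx n
    have h : Commute z x := hZ z hz x hx
    exact h.mul_pow n
  have hin : ∀ y ∈ Om p j Z, y ∈ Z := by
    rintro y ⟨-, z, hz, rfl⟩
    exact Z.pow_mem hz _
  refine ⟨{ carrier := Om p j Z, mul_mem' := ?_, one_mem' := ?_, inv_mem' := ?_ }, ?_, rfl⟩
  · intro y y' hy hy'
    have h1 := hin y hy
    have h2 := hin y' hy'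
    obtain ⟨hy1, z, hz, hzy⟩ := hy
    obtain ⟨hy1', z', hz', hzy'⟩ := hy'
    refine ⟨?_, z * z', Z.mul_mem hz hz', ?_⟩
    · rw [key y h1 y' h2, hy1, hy1', one_mul]
    · rw [key z hz z' hz', hzy, hzy']
  · exact ⟨one_pow _, 1, Z.one_mem, one_pow _⟩
  · intro y hy
    obtain ⟨hy1, z, hz, hzy⟩ := hy
    refine ⟨?_, z⁻¹, Z.inv_mem hz, ?_⟩
    · rw [inv_pow, hy1, inv_one]
    · rw [inv_pow, hzy]
  · intro y hy
    exact hin y hy

theorem ZGP_card (p : ℕ) (hp : p.Prime) (G : Type) [Group G] [Finite G] (Z : Subgroup G) (hZp : IsPGroup p Z) (hZ : ∀ z ∈ Z, ∀ x ∈ Z, z * x = x * z) (j : ℕ) :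
    ∃ n : ℕ, (Om p j Z).ncard = p ^ n := by
  haveI : Fact p.Prime := ⟨hp⟩
  obtain ⟨S, hS, hS2⟩ := ZGP_sub p G Z hZ j
  obtain ⟨n, hn⟩ := IsPGroup.iff_card.mp (hZp.to_le hS)
  refine ⟨n, ?_⟩
  rw [← hS2, ← hn]
  exact (Nat.card_coe_set_eq _).symm

theorem ZGP_mono (p : ℕ) (G : Type) [Group G] (Z : Subgroup G) (j : ℕ) : Om p (j + 1) Z ⊆ Om p j Z := by
  rintro y ⟨hy, z, hz, hzy⟩
  refine ⟨hy, z ^ p, Z.pow_mem hz _, ?_⟩
  rw [← pow_mul, ← pow_succ']
  exact hzy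

/-- an element of order `p` which is a high power -/
theorem ZGP_elt (p : ℕ) (G : Type) [Group G] (Z : Subgroup G) (hZp : IsPGroup p Z) (m : ℕ) (h : ∃ z ∈ Z, z ^ p ^ m ≠ 1) (j : ℕ) (hj : j ≤ m) :
    ∃ y ∈ Om p j Z, y ≠ 1 := by
  obtain ⟨z, hz, hz1⟩ := h
  have hex : ∃ n : ℕ, (z ^ p ^ m) ^ p ^ n = 1 := by
    obtain ⟨n, hn⟩ := hZp ⟨z ^ p ^ m, Z.pow_mem hz _⟩
    refine ⟨n, ?_⟩
    have := congrArg Subtype.val hn
    simpa using this
  classical
  have hspec := Nat.find_spec hex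
  have hmin := fun k => @Nat.find_min _ _ hex k
  obtain ⟨n, hn⟩ : ∃ n, Nat.find hex = n + 1 := by
    rcases Nat.eq_zero_or_pos (Nat.find hex) with h0 | h0
    · exfalso
      rw [h0, pow_zero, pow_one] at hspec
      exact hz1 hspec
    · exact ⟨Nat.find hex - 1, by omega⟩
  rw [hn] at hspec
  have h1 := hmin n (by omega)
  refine ⟨(z ^ p ^ m) ^ p ^ n, ⟨?_, z ^ p ^ (m + n - j), Z.pow_mem hz _, ?_⟩, h1⟩
  · rw [← pow_mul, ← pow_succ]
    exact hspec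
  · rw [← pow_mul, ← pow_mul, ← pow_add, ← pow_add]
    congr 2
    omega

theorem ZGP : ZGP_stmt := by
  intro p a r w hp G _ _ D Z hD hZD hcen hcard hr hex
  have hp1 : 1 < p := hp.one_lt
  have hZc : ∀ z ∈ Z, ∀ x ∈ Z, z * x = x * z := fun z hz x hx => hcen z hz x (hZD hx)
  have hZp : IsPGroup p Z := hD.to_le hZD
  choose K hK using fun j => ZGP_card p hp G Z hZp hZc j
  have hmono : ∀ j, K (j + 1) ≤ K j := by
    intro j
    have h1 : (Om p (j + 1) Z).ncard ≤ (Om p j Z).ncard := Set.ncard_le_ncard (ZGP_mono p G Z j) (Set.toFinite _)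
    rw [hK, hK] at h1
    exact (Nat.pow_le_pow_iff_right hp1).mp h1
  have hanti : Antitone K := antitone_nat_of_succ_le hmono
  have hK0 : K 0 ≤ r := by
    rw [hK] at hr
    exact (Nat.pow_le_pow_iff_right hp1).mp hr
  have hpos : ∀ j, j ≤ r * (a + w) → 1 ≤ K j := by
    intro j hj
    obtain ⟨y, hy, hy1⟩ := ZGP_elt p G Z hZp _ hex j hj
    by_contra hlt
    have h0 : K j = 0 := by omega
    have h1 := hK j
    rw [h0, pow_zero, Set.ncard_eq_one] at h1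
    obtain ⟨u, hu⟩ := h1
    have h2 : (1 : G) ∈ Om p j Z := ⟨one_pow _, 1, Z.one_mem, one_pow _⟩
    rw [hu] at hy h2
    exact hy1 (hy.trans h2.symm)
  obtain ⟨i, hi, hii⟩ : ∃ i, i < r ∧ K ((i + 1) * (a + w)) = K (i * (a + w)) := by
    by_contra hno
    push_neg at hno
    have hind : ∀ i, i ≤ r → K (i * (a + w)) + i ≤ K 0 := by
      intro i
      induction i with
      | zero => intro _; simp
      | succ i ih =>
        intro hi
        have h1 := ih (by omega)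
        have h2 := hno i (by omega)
        have h3 : K ((i + 1) * (a + w)) ≤ K (i * (a + w)) := hanti (Nat.mul_le_mul_right _ (Nat.le_succ i))
        omega
    have h1 := hind r le_rfl
    have h2 := hpos (r * (a + w)) le_rfl
    omega
  refine ⟨⟨a, r, i * (a + w) + a, w, K (i * (a + w))⟩, rfl, rfl, rfl, ?_⟩
  refine ⟨Nat.le_add_left _ _, hpos _ (Nat.mul_le_mul_right _ hi.le), hD, Z, hZD, hcen, hcard, hr, ?_, ?_⟩
  · show (Om p (i * (a + w) + a - a) Z).ncard = p ^ K (i * (a + w))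
    rw [Nat.add_sub_cancel]
    exact hK _
  · show (Om p (i * (a + w) + a + w) Z).ncard = p ^ K (i * (a + w))
    have e : i * (a + w) + a + w = (i + 1) * (a + w) := by ring
    rw [e, hK, hii]

end Pool.Agent.ZB
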